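import Pool.Agent.H7.GT.Stmts
import Pool.Agent.H7.KR.Stmts

/-!
# Cliques with `t < ω` vertices, small residues: definitions of the board `gu` (MP_fd41b2_co)

`b = p + 3 = ω - 1`, `u = w + 2 = t - 1`, `Δ = (p + 3) a + r`, `4 r ≤ b`.
-/

set_option autoImplicit false

open Finset

namespace Pool.GU7

open Pool.Agent.H23.KT Pool.Agent.H46.KW Pool.KQ Pool.GT7

/-- Conditions without an upper bound of `r` by `w`. -/
structure Pr0 (p w r : ℕ) : Prop where
  wp : w ≤ p
  r1 : 1 ≤ r
  rp : r ≤ p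

/-- The conditions of the theorem. -/
structure Pr8 (p w r : ℕ) : Prop where
  wp : w ≤ p
  r2 : 2 ≤ r
  rb : 4 * r ≤ p + 3

/-- A small constant. -/
noncomputable def et (p w : ℕ) : ℝ :=
  e1 p / (256 * ((p : ℝ) + 3) ^ 3 * ((w : ℝ) + 2) * (p + 2).choose (w + 1))

/-- What the exceptional vertex `z` still owes, `X` = union of the parts. -/
noncomputable def nd {V : Type} (G : SimpleGraph V) (p w r a : ℕ) (X : Finset V) (z : V) : ℝ :=
  max 0 ((kc G (nb G X z) (w + 1) : ℝ) -
    (1 - et p w) * ((p + 2).choose (w + 1) * (a : ℝ) ^ (w + 1) / (a : ℝ) ^ (p + 3)) * TZ G p r X z)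

/-- The left side of the local inequality. -/
noncomputable def Ph {V : Type} [DecidableEq V] (G : SimpleGraph V) (p w r a : ℕ) (W : Finset V) :
    ℝ :=
  lam p w r a * ((bal (p + 3) ((p + 3) * a + r) : ℝ) - kc G W (p + 3)) +
    Lm p w r a * ∑ L ∈ clq G W (p + 3), min (r : ℝ) (XX G p r a W L)

/-- The deficit of `W`. -/
noncomputable def df {V : Type} (G : SimpleGraph V) (p w r a : ℕ) (W : Finset V) : ℝ :=
  (TT (p + 3) (w + 2) a r : ℝ) - kc G W (w + 2)

/-- The graphs of the theorem. -/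
structure G8 {V : Type} [Fintype V] [DecidableEq V] (G : SimpleGraph V) (p r a : ℕ) : Prop where
  cb : CB G univ (p + 4)
  deg : ∀ v, (nb G univ v).card ≤ (p + 3) * a + r

/-- The slope of the bound on codegrees: `p / 2 - 1 / (2 (p + 1))`. -/
noncomputable def m0 (p : ℕ) : ℝ := (p : ℝ) / 2 - 1 / (2 * ((p : ℝ) + 1))

end Pool.GU7
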