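import Pool.Agent.H7.GU.Defs

/-!
# Cliques with `t < ω` vertices, residues `r ≤ (ω - 1) / 4`: statements of the board `gu`

`b = p + 3 = ω - 1`, `u = w + 2 = t - 1`, `Δ = (p + 3) a + r`, `Pr8 p w r`: `w ≤ p`, `2 ≤ r`,
`4 r ≤ p + 3` (so `p ≥ 5`, `Pr0 p w r`). THEOREM: for large `a` the Turán graph with `(p + 4) a + r`
vertices and `p + 4` parts has the most cliques with `w + 3` vertices per vertex. Row `XXX` =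
`def XXXStmt : Prop`; file `Pool/Agent/H<k>/GU/XXX.lean`, `import Pool.Agent.H7.GU.Stmts`, namespace
`Pool.GU7`, `open Pool.Agent.H23.KT Pool.Agent.H46.KW Pool.KQ Pool.GT7`. Rows `XXX0` are the rows `XXX`
of the board `gt7` (all proved, files `Pool/Agent/H*/GT/XXX.lean`) with `Prm p w r` replaced by the weaker
`Pr0 p w r` (no `r ≤ w + 1`), which their proofs do not use. Rows needed as hypotheses may be from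
`gt7` (`Pool.GT7`), `kq` (`Pool.KQ`) and `kr` (`Pool.KR`: `NMSStmt`, `STGStmt`, all proved).
Notation in the proofs: `c₁ = choose (p+2) (w+1)`, `X = un P`, `T = TZ G p r X z`, `N = kc G X (p+3)`,
`B = (nb G L z).card`, `n_z = (nb G X z).card`. `Pool.KR.co G v z = nb G (nb G univ v) z` = common
neighbours of `v` and `z` in the whole graph.
IDEA. A good vertex `v` (deficit `≤ C₂ a^(w+1)`) has the structure `Str`, and an exceptional vertex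
`z` of `N(v)` may owe `nd` to `v`. If `z` is not good then it pays (row BUD: its deficit is large); if
it is good then `v` and `z` are strangers and the second order slack of LIP pays (rows GGP, PAY).
-/

set_option autoImplicit false

open Finset

namespace Pool.GU7

open Pool.Agent.H23.KT Pool.Agent.H46.KW Pool.KQ Pool.GT7

/-! ### Copies with `Pr0` -/

/-- (LMB0) Copy of `LMBStmt`. Needs TTR. -/
def LMB0Stmt : Prop :=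
  ∀ p w r : ℕ, Pr0 p w r → ∃ K : ℝ, 0 < K ∧ ∀ a : ℕ, 1 ≤ a →
    (1 - K / a) * ((p + 2).choose (w + 1) * (a : ℝ) ^ (w + 1)) ≤ Lm p w r a * (a : ℝ) ^ (p + 3) ∧
    Lm p w r a * (a : ℝ) ^ (p + 3) ≤ (1 + K / a) * ((p + 2).choose (w + 1) * (a : ℝ) ^ (w + 1)) ∧
    0 < lam p w r a ∧ 0 < Lm p w r a ∧ lam p w r a ≤ Lm p w r a ∧
    lam p w r a * (((p + 4) * a + r) * bal (p + 3) ((p + 3) * a + r)) =
      r * (a + 1) * TT (p + 2) (w + 1) a (r - 1)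

/-- (NUX0) Copy of `NUXStmt` with `Pr0` and a better slack (`5/2` replaced by
`2 choose (p+2) (w+1) - choose (p+1) w - 1/2`). Needs TTR. PROOF. As there; the last step:
`C(x,2) (choose (p+1) w (a+1)^w + σ a^w) ≤ 2 C(x,2) choose (p+2) (w+1) a^w (1 - K/a)` for `a` large. -/
def NUX0Stmt : Prop :=
  ∀ p w r : ℕ, Pr0 p w r → ∃ a₀ : ℕ, ∀ a ≥ a₀, ∀ x ≤ r,
    lam p w r a * ((a : ℝ) ^ (p + 3 - r) * ((a : ℝ) + 1) ^ r) +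
      (Lm p w r a * x - lam p w r a) *
        ((a : ℝ) ^ (p + 3 - r + x) * ((a : ℝ) + 1) ^ (r - x)) +
      (2 * ((p + 2).choose (w + 1) : ℝ) - (p + 1).choose w - 1 / 2) *
        (x.choose 2 : ℝ) * (a : ℝ) ^ w ≤
      (TT (p + 3) (w + 2) a r : ℝ) - TT (p + 3) (w + 2) a (r - x)

/-- (SIZ0) Copy of `SIZStmt` with the slack of NUX0. Needs NUX0, SWL, LMB0. -/
def SIZ0Stmt : Prop :=
  ∀ p w r : ℕ, Pr0 p w r → ∃ a₀ : ℕ, ∀ a ≥ a₀, ∀ x ≤ r, ∀ n : Fin (p + 3) → ℕ,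
    ∑ i, n i + x = (p + 3) * a + r → (∀ i, a ≤ 2 * n i ∧ n i ≤ 2 * a) →
    lam p w r a * ((a : ℝ) ^ (p + 3 - r) * ((a : ℝ) + 1) ^ r - ∏ i, (n i : ℝ)) +
      Lm p w r a * x * ∏ i, (n i : ℝ) +
      (2 * ((p + 2).choose (w + 1) : ℝ) - (p + 1).choose w - 1 / 2) *
        (x.choose 2 : ℝ) * (a : ℝ) ^ w ≤
      (TT (p + 3) (w + 2) a r : ℝ) - es n (w + 2)

/-- (XGR0) Copy of `XGRStmt`. Needs SWL, EST, LMB0. -/
def XGR0Stmt : Prop :=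
  ∀ p w r : ℕ, Pr0 p w r → ∀ η : ℝ, 0 < η → η ≤ 1 → ∃ e₀ : ℝ, 0 < e₀ ∧
    ∀ e K : ℝ, 0 < e → e ≤ e₀ →
    ∃ a₀ : ℕ, ∀ a ≥ a₀, ∀ x > r, ∀ n : Fin (p + 3) → ℕ, ∑ i, n i + x = (p + 3) * a + r →
    (∀ i, (1 - e) * a ≤ (n i : ℝ) ∧ (n i : ℝ) ≤ (1 + e) * a) →
    lam p w r a * ((a : ℝ) ^ (p + 3 - r) * ((a : ℝ) + 1) ^ r - ∏ i, (n i : ℝ)) +
      Lm p w r a * ((x : ℝ) - η / 2 * ((x : ℝ) - r)) * ∏ i, (n i : ℝ) + K * (a : ℝ) ^ w ≤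
      (TT (p + 3) (w + 2) a r : ℝ) - es n (w + 2)

/-- (GCO0) Copy of the parts (1)-(4), (6) of `GCOStmt`. -/
def GCO0Stmt : Prop :=
  ∀ p w r : ℕ, Pr0 p w r →
    (∀ B ≤ p + 2, 0 ≤ ww p r B ∧ ww p r B ≤ 1 ∧ 0 ≤ gg p r (B + 1) ∧ gg p r (B + 1) ≤ 1) ∧
    ww p r (p + 2) = 1 ∧ 1 / 2 ≤ ww p r (p + 1) ∧
    (∀ B ≤ p + 2, r ≤ B → 1 / ((p : ℝ) + 3) ≤ ww p r B) ∧
    (∀ μ ≤ p + 2, gg p r (p + 3 - μ) ≤
      (r : ℝ) / (((p : ℝ) + 3 - r) * ((p : ℝ) + 2)) * μ + μ.choose 2)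

/-- (PHI0) Copy of `PHIStmt`. Needs GCO0. -/
def PHI0Stmt : Prop :=
  ∀ {V : Type} [Fintype V] [DecidableEq V] (G : SimpleGraph V) (p w r a : ℕ), Pr0 p w r →
    CB G univ (p + 4) → (∀ v, (nb G univ v).card ≤ (p + 3) * a + r) →
    ∀ K ∈ clq G univ (p + 4), (r : ℝ) ≤
      ∑ v ∈ K, min (r : ℝ) (XX G p r a (nb G univ v) (K.erase v))

/-- (GLD0) Copy of `GLDStmt` with the local inequalities only summed over all vertices (the proof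
uses only the sum). Needs PHI0, TTR, LMB0. -/
def GLD0Stmt : Prop :=
  ∀ {V : Type} [Fintype V] [DecidableEq V] (G : SimpleGraph V) (p w r a : ℕ), Pr0 p w r → 1 ≤ a →
    CB G univ (p + 4) → (∀ v, (nb G univ v).card ≤ (p + 3) * a + r) →
    ∑ v, Ph G p w r a (nb G univ v) ≤ ∑ v, df G p w r a (nb G univ v) →
    kc G univ (w + 3) * ((p + 4) * a + r) ≤ TT (p + 4) (w + 3) a r * Fintype.card V

/-- (CCK0) Copy of `CCKStmt`. Needs GRD, GCO0. -/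
def CCK0Stmt : Prop :=
  ∀ {V : Type} [DecidableEq V] (G : SimpleGraph V) (p w r a : ℕ) (e C : ℝ) (W : Finset V)
    (P : Fin (p + 3) → Finset V) (U : Finset V), Pr0 p w r → Str G p a e C W P U → 0 ≤ e →
    e ≤ e1 p / 2 → CB G W (p + 3) → ∀ z ∈ U,
    (∀ L ∈ clq G (un P) (p + 3), (nb G L z).card ≤ p + 2) ∧
    (cc G p (un P) (p + 2) z : ℝ) ≤ (1 + e) * a * kc G (nb G (un P) z) (p + 2) ∧
    (a : ℝ) / 2 * kc G (nb G (un P) z) (p + 2) ≤ cc G p (un P) (p + 2) z ∧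
    (cc G p (un P) (p + 2) z : ℝ) + 1 / 2 * cc G p (un P) (p + 1) z ≤ TZ G p r (un P) z

/-- (XSP0) Copy of `XSPStmt`. Needs GCO0, CCK0. -/
def XSP0Stmt : Prop :=
  ∀ {V : Type} [DecidableEq V] (G : SimpleGraph V) (p w r a : ℕ) (e C η : ℝ) (W : Finset V)
    (P : Fin (p + 3) → Finset V) (U : Finset V), Pr0 p w r → Str G p a e C W P U → 0 ≤ e →
    e ≤ e1 p / 2 → CB G W (p + 3) → W.card ≤ (p + 3) * a + r → 0 ≤ η → η ≤ 1 →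
    ∀ L ∈ clq G (un P) (p + 3),
    min (r : ℝ) (XX G p r a W L) + (1 - η) * ∑ z ∈ U, ww p r (nb G L z).card ≤
      ((((p + 3) * a + r : ℕ) : ℝ) - (un P).card) + mm G p r (un P) L -
        η / 2 * ∑ z ∈ U, ww p r (nb G L z).card -
        η / 2 * max ((((p + 3) * a + r : ℕ) : ℝ) - (un P).card - r) 0

/-- (MLB0) Copy of `MLBStmt`. Needs TRV, GCO0. -/
def MLB0Stmt : Prop :=
  ∀ {V : Type} [DecidableEq V] (G : SimpleGraph V) (p w r a : ℕ) (e : ℝ)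
    (P : Fin (p + 3) → Finset V), Pr0 p w r → 0 ≤ e → Par G P →
    (∀ i, ((P i).card : ℝ) ≤ (1 + e) * a) →
    (∀ i, ∀ u ∈ P i, ∀ k, k ≠ i → ((non G (P k) u).card : ℝ) ≤ e1 p * a) →
    ∑ L ∈ clq G (un P) (p + 3), mm G p r (un P) L ≤
      tot G P * ((1 + e) * a) ^ (p + 2) *
        ((r : ℝ) / (((p : ℝ) + 3 - r) * ((p : ℝ) + 2)) + ((p : ℝ) + 3) / 2 * e1 p)

/-- (NET0) Copy of `NETStmt`. Needs MLB0, KUM, BRK, TRV, LMB0. The only place where the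
residue matters: `2 r / ((w+1)(b-r)) ≤ 2/3`, which is the hypothesis `3 r ≤ (w+1)(b-r)`. -/
def NET0Stmt : Prop :=
  ∀ p w r : ℕ, Pr0 p w r → 3 * r ≤ (w + 1) * (p + 3 - r) → ∃ a₀ : ℕ, ∀ a ≥ a₀,
    ∀ {V : Type} [DecidableEq V] (G : SimpleGraph V) (e : ℝ)
    (P : Fin (p + 3) → Finset V), 0 ≤ e → e ≤ e1 p / 2 → Par G P →
    (∀ i, (1 - e) * a ≤ ((P i).card : ℝ) ∧ ((P i).card : ℝ) ≤ (1 + e) * a) →
    (∀ i, ∀ u ∈ P i, ∀ k, k ≠ i → ((non G (P k) u).card : ℝ) ≤ e1 p * a) →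
    Lm p w r a * ∑ L ∈ clq G (un P) (p + 3), mm G p r (un P) L +
      lam p w r a * ((∏ i, ((P i).card : ℝ)) - kc G (un P) (p + 3)) + kc G (un P) (w + 2) ≤
      es (sz P) (w + 2)

/-! ### Numbers -/

/-- (GC8) Pointwise inequalities. `ww p r B = b (B+1-r)/((b-r)(B+1))` for `B + 1 ≥ r`, `0` for `B + 1 ≤ r`
(`b = p + 3`). PROOF. (1) `f = (b-1) ww - B`. For `B ≥ r - 1`: `f = (b-1-B)((b-r) B - b(r-1))/((b-r)(B+1))`, and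
`(b-r) B - b (r-1) - (B+1)(B - 2(r-1)) = (B-(r-1))(b-2-B) ≥ 0` for `B ≤ b - 2` (`B = b - 1`: both sides `0`). For
`B ≤ r - 1`: `f = -B` and `B (b-r) ≤ (b-1-B)(2(r-1)-B)` (equality at `B = r - 1`; the left side increases, the
right side decreases in `B`). (2) `choose_ratio` (`Pool/Agent/H23/KT/Gen.lean`). (3) If `B ≤ r - 1`: `ww = 0`,
`choose B (w+1) ≤ (B/(p+2))^(w+1) c₁ ≤ 4^(-(w+1)) c₁` (`4 (r-1) ≤ p + 2`) and `(w+3)/4^(w+1) ≤ 3/4`. If `r ≤ B ≤ p+1`: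
let `q = B + 1`, `u = w + 2`, `F q = c₁ (q + u b (q-r)/(b-r)) - u (u+1) choose q u` (`q choose (q-1) (u-1) = u
choose q u`: `F q = q *` (right side - left side without the constant)). `F b = 0` (`u choose b u = b c₁`), `F r =
r (c₁ - (u+1) choose (r-1) (u-1)) ≥ r c₁/4` as before, `F` is concave on the integers `r ≤ q ≤ b` (`choose q u`
has nondecreasing differences), so `F q ≥ (b-q)/(b-r) F r ≥ r c₁/(4 (b-r))`, and `F q / q ≥ 1/(4 b^2)`. -/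
def GC8Stmt : Prop :=
  ∀ p w r : ℕ, Pr8 p w r →
    (∀ B ≤ p + 2, ((p : ℝ) + 2 - B) * (B - 2 * ((r : ℝ) - 1)) ≤
      ((p : ℝ) + 3 - r) * (((p : ℝ) + 2) * ww p r B - B)) ∧
    (∀ B ≤ p + 2, (B.choose (w + 1) : ℝ) * ((p : ℝ) + 2) ≤ B * (p + 2).choose (w + 1)) ∧
    (∀ B ≤ p + 1, ((w : ℝ) + 3) * B.choose (w + 1) + 1 / (4 * ((p : ℝ) + 3) ^ 2) ≤
      (p + 2).choose (w + 1) * (1 + ((w : ℝ) + 2) * ww p r B))

/-- (ZYG) Zykov's bound for smaller cliques. PROOF. Induction on `q`, for all `W`, `j`. `j = 0`: `1 ≤ 1`.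
`q = 0`: `W` has no clique with one vertex, so `W = ∅`. Step `q → q + 1`, `j + 1`: let `x ∈ W` have
the maximal degree `d` in `W` (`W ≠ ∅`), `n = card W`. `kc_le_sum` with `U = W \ nb G W x`: `kc G W (j+1) ≤
∑_(y ∈ U) kc G (nb G W y) j + kc G (nb G W x) (j+1)`, all these sets have `≤ d` elements and `CB .. q`
(`CB.nb`), so with `q ≥ 1`, `y = d/q`, `t = n/(q+1)`: `≤ (n - q y) choose q j y^j + choose q (j+1) y^(j+1) =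
choose q j (q+1) (t y^j - (j/(j+1)) y^(j+1)) ≤ choose q j ((q+1)/(j+1)) t^(j+1) = choose (q+1) (j+1) t^(j+1)`, by
`tangent` (`Pool/Agent/H46/KW/Bal.lean`) with `n := j`. (If `q = 0`: `CB G W 1`, no edges: `kc G W 1 ≤ n`, `kc = 0` for
`j + 1 ≥ 2`.) -/
def ZYGStmt : Prop :=
  ∀ {V : Type} [DecidableEq V] (G : SimpleGraph V) (q : ℕ) (W : Finset V), CB G W q → ∀ j : ℕ,
    (kc G W j : ℝ) ≤ q.choose j * ((W.card : ℝ) / q) ^ j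

/-! ### The profile of an exceptional vertex -/

/-- (PRF) The numbers `B = (nb G L z).card`. Needs TRV, BRK, EXB, NMS (`Pool.KR.NMSStmt`).
PROOF. `n_i = card (nb G (P i) z)`, `n_z = ∑ n_i`. All with `e ≤ e₀(ε)`, then `a` large. BRK (1) with `D = 2a`: all
but `C a (2a)^(p+1)` elements of `piFinset P` are in `trv`; `TRV`: sums over `clq G X (p+3)` are sums over
`trv`. (1) `((1-e)a)^b - C a (2a)^(p+1) ≤ N ≤ ((1+e)a)^b`. (2) `∑_f #{i : f i ∈ N(z)}` over `piFinset P` is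
`∑_i n_i ∏_(l ≠ i) card (P l)`. (3) `∑_f B^2 ≤ ∑_i n_i ∏_(l ≠ i) + ∑_(i ≠ k) n_i n_k ∏_(l ≠ i, k) card (P l)`, and
`∑_(i ≠ k) n_i n_k = n_z^2 - ∑ n_i^2`; NMS gives `k0` with `n_(k0) ≤ ζ a`, so by Cauchy-Schwarz
`∑ n_i^2 ≥ (n_z - n_(k0))^2/(b-1) ≥ (n_z^2 - 2 n_z ζ a)/(b-1)`. (4) EXB, and `(1 - (1-e)^(b-j)) a^(b-j) κ_j ≤ b e
(2b)^j a^b` (`κ_j = kc G (nb G X z) j ≤ n_z^j`). (5) `k0` and `exc` at `k0`: some `k ≠ k0` with `n_k ≤ (1+e) a -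
e1/4 a`: `n_z ≤ ζ a + (b-1)(1+e) a - e1/4 a`. -/
def PRFStmt : Prop :=
  ∀ (p : ℕ) (ε : ℝ), 0 < ε → ∃ e₀ : ℝ, 0 < e₀ ∧ ∀ C : ℝ, ∃ a₀ : ℕ, ∀ a ≥ a₀,
    ∀ {V : Type} [DecidableEq V] (G : SimpleGraph V) (e : ℝ) (W : Finset V)
    (P : Fin (p + 3) → Finset V) (U : Finset V), Str G p a e C W P U → 0 ≤ e → e ≤ e₀ →
    CB G W (p + 3) → ∀ z ∈ U,
    (1 - ε) * (a : ℝ) ^ (p + 3) ≤ kc G (un P) (p + 3) ∧
    (kc G (un P) (p + 3) : ℝ) ≤ (1 + ε) * (a : ℝ) ^ (p + 3) ∧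
    ((nb G (un P) z).card : ℝ) * (a : ℝ) ^ (p + 2) - ε * (a : ℝ) ^ (p + 3) ≤
      ∑ L ∈ clq G (un P) (p + 3), ((nb G L z).card : ℝ) ∧
    ∑ L ∈ clq G (un P) (p + 3), ((nb G L z).card : ℝ) ≤
      ((nb G (un P) z).card : ℝ) * (a : ℝ) ^ (p + 2) + ε * (a : ℝ) ^ (p + 3) ∧
    ∑ L ∈ clq G (un P) (p + 3), ((nb G L z).card : ℝ) ^ 2 ≤
      ((nb G (un P) z).card : ℝ) * (a : ℝ) ^ (p + 2) +
        ((p : ℝ) + 1) / ((p : ℝ) + 2) * ((nb G (un P) z).card : ℝ) ^ 2 * (a : ℝ) ^ (p + 1) +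
        ε * (a : ℝ) ^ (p + 3) ∧
    (∀ j ≤ p + 3, (kc G (nb G (un P) z) j : ℝ) * (a : ℝ) ^ (p + 3 - j) ≤
      ∑ L ∈ clq G (un P) (p + 3), ((nb G L z).card.choose j : ℝ) + ε * (a : ℝ) ^ (p + 3)) ∧
    ((nb G (un P) z).card : ℝ) ≤ ((p : ℝ) + 2 - e1 p / 8) * a

/-- (NDM) A vertex with many neighbours owes nothing. Needs GC8, PRF, CCK0 (1), GCO0.
PROOF. `b = p + 3`, `μ = n_z/a`, `K` = constants depending on `p`. GC8 (1) summed, PRF (1)-(3):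
`(b-r)((b-1) T - ∑ B) ≥ (b-1) ∑ B - 2(r-1)(b-1) N - ∑ B^2 + 2(r-1) ∑ B ≥ a^b [(b-1-μ)(μ (b-2)/(b-1) - 2(r-1)) - K ε]`
(`(b-1) μ - 2(r-1)(b-1) + 2(r-1) μ - μ - ((b-2)/(b-1)) μ^2` is this product). PRF (7): `b - 1 - μ ≥ e1/8`. As `4 r ≤ b`:
`2(r-1)(b-1)/(b-2) ≤ (b-3)/2 - 1/(b-2) = m0 - 1/(2(b-2))` (`(b-3)(b-2) - (b-4)(b-1) = 2`), so by hypothesis
`μ (b-2)/(b-1) - 2(r-1) ≥ 1/(4(b-1))`. Hence for `ε` small `(b-1) T - ∑ B ≥ e1/(64 b^2) a^b`. PRF (6), GC8 (2)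
(`B ≤ p + 2`): `κ a^(b-w-1) ≤ ∑ choose B (w+1) + ε a^b ≤ (c₁/(b-1)) ∑ B + ε a^b ≤ c₁ T - c₁ e1/(128 b^3) a^b ≤ (1 -
et) c₁ T`, as `T ≤ N ≤ 2 a^b` and `et ≤ e1/(256 b^3)`. Multiply by `a^(w+1)`: `nd = 0`. -/
def NDMStmt : Prop :=
  ∀ p w r : ℕ, Pr8 p w r → ∃ e₀ : ℝ, 0 < e₀ ∧ ∀ C : ℝ, ∃ a₀ : ℕ, ∀ a ≥ a₀,
    ∀ {V : Type} [DecidableEq V] (G : SimpleGraph V) (e : ℝ) (W : Finset V)
    (P : Fin (p + 3) → Finset V) (U : Finset V), Str G p a e C W P U → 0 ≤ e → e ≤ e₀ →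
    CB G W (p + 3) → ∀ z ∈ U,
    (m0 p - 1 / (4 * ((p : ℝ) + 1))) * a ≤ ((nb G (un P) z).card : ℝ) →
    nd G p w r a (un P) z = 0

/-- (NDB) What is owed is less than the loss at the edge. Needs GC8, PRF, CCK0 (1), GCO0.
PROOF. `s₀ = 1/(4 b^2)`, `κ = kc G (nb G X z) (w+1)`. GC8 (3) for `B ≤ p + 1` and equality `(w+3) c₁ = c₁ (1 + (w+2))`
for `B = p + 2`: `(w+3) ∑ choose B (w+1) ≤ c₁ N + (w+2) c₁ T - s₀ #{L : B ≤ p+1}`. `#{B = p+2} ≤ ∑ B/(p+2) ≤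
(m0/(p+2) + ε) a^b ≤ a^b/2`, so `#{B ≤ p+1} ≥ N - a^b/2 ≥ a^b/4`. With PRF (6), (2): `(w+3) κ a^(b-w-1) ≤ (c₁ -
s₀/4 + K ε) a^b + (w+2) c₁ T`, and `(w+2) et c₁ T ≤ 2 (w+2) et c₁ a^b ≤ s₀/16 a^b` (`et ≤ 1/(256 b^3 (w+2) c₁)`).
So `(w+3) κ ≤ (c₁ - s₀/8) a^(w+1) + (w+2)(1-et) c₁ a^(w+1) T/a^b` for `ε` small. If `nd > 0` then `nd = κ - (1-et)
c₁ a^(w+1) T/a^b`, so `(w+2) nd + κ ≤ (c₁ - s₀/8) a^(w+1)`. -/
def NDBStmt : Prop :=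
  ∀ p w r : ℕ, Pr8 p w r → ∃ e₀ : ℝ, 0 < e₀ ∧ ∀ C : ℝ, ∃ a₀ : ℕ, ∀ a ≥ a₀,
    ∀ {V : Type} [DecidableEq V] (G : SimpleGraph V) (e : ℝ) (W : Finset V)
    (P : Fin (p + 3) → Finset V) (U : Finset V), Str G p a e C W P U → 0 ≤ e → e ≤ e₀ →
    CB G W (p + 3) → ∀ z ∈ U, ((nb G (un P) z).card : ℝ) ≤ m0 p * a →
    0 < nd G p w r a (un P) z →
    ((w : ℝ) + 2) * nd G p w r a (un P) z + kc G (nb G (un P) z) (w + 1) ≤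
      ((p + 2).choose (w + 1) - 1 / (32 * ((p : ℝ) + 3) ^ 2)) * (a : ℝ) ^ (w + 1)

/-! ### Vertices which are not good -/

/-- (SPL) Cliques with `j + 1` vertices in `W`, split by their part in `A`. `κ y = kc G (nb G W y) j`.
PROOF. `∑_(y ∈ W) κ y = ∑_S card S = (j+1) kc G W (j+1)` over `S ∈ clq G W (j+1)` (`sum_link`). For `y ∈ W \ A`:
`κ y` counts the `S ∋ y`. `∑_(y ∈ W \ A) κ y = ∑_S card (S \ A) = (j+1) kc G (W \ A) (j+1) + M`, `M = ∑_(S ∩ A ≠ ∅)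
card (S \ A)`. (1) `M ≤ j ∑_S card (S ∩ A) = j ∑_(v ∈ A) κ v`. (2) Let `D` be a set of ordered pairs (dirty pairs
`(v, y)`, `v ∈ A`, `y ∈ W \ A`), and let `Y ⊆ W \ A` contain every `y ∈ W \ A` with an adjacent `v ∈ A` and
`(v, y) ∉ D`. For `S` with `S ∩ A ≠ ∅` and `y ∈ S \ A`, either `y ∈ Y`, or `(v, y) ∈ D` for all
`v ∈ S ∩ A`. So `M ≤ ∑_(y ∈ Y) κ y + ∑_((v, y) ∈ D) #{S : v, y ∈ S}` and the last number is
`≤ choose (card W) (j-1) ≤ (card W)^(j-1)` (`j ≥ 1`). -/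
def SPLStmt : Prop :=
  ∀ {V : Type} [DecidableEq V] (G : SimpleGraph V) (W A Y : Finset V) (D : Finset (V × V))
    (j : ℕ), A ⊆ W → Y ⊆ W \ A → (∀ v ∈ A, ∀ y ∈ W \ A, G.Adj v y → (v, y) ∉ D → y ∈ Y) →
    (j + 2) * kc G W (j + 2) ≤ ∑ v ∈ A, kc G (nb G W v) (j + 1) +
      (j + 2) * kc G (W \ A) (j + 2) + (j + 1) * ∑ v ∈ A, kc G (nb G W v) (j + 1) ∧
    (j + 2) * kc G W (j + 2) ≤ ∑ v ∈ A, kc G (nb G W v) (j + 1) +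
      (j + 2) * kc G (W \ A) (j + 2) + ∑ y ∈ Y, kc G (nb G W y) (j + 1) +
      D.card * W.card ^ j

/-- (NUB) The numerical part of BDA, `b = p + 3`, `g = 1/2 - 1/(4(p+1)(p+2))`, `n` = size of `A`.
PROOF. `ã = a + r/b = Δ/b`, `x = Δ - n`, `j = w + 1`; `a^j ≥ ã^j - (j r/b) ã^w`, and `x * (j r/b) ã^w ≤ K a^j`. (1)
`n ≤ Δ/2`: `x (ã^j - (x/b)^j) = x (n/b) ∑_(i<j) ã^(j-1-i) (x/b)^i ≥ (bã/2)(n/b) ã^(j-1) ∑_(i<j) 2^(-i) = n ã^j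
(1 - 2^(-j)) ≥ j 2^(-j) n a^j` (`x/b ≥ ã/2`, `2^j ≥ j + 1`). (2) `n ≥ Δ/2`: `x/b ≤ ã/2`, `ã^j ≤ (1 + K/a) a^j`:
`a^j - (x/b)^j - (g a)^j ≥ a^j (1 - 2^(-j) (1 + K/a) - g^j) ≥ 0` for `a` large as `2^(-j) + g^j < 1` (`g < 1/2`). -/
def NUBStmt : Prop :=
  ∀ p w r : ℕ, ∃ K : ℝ, 0 < K ∧ ∃ a₀ : ℕ, ∀ a ≥ a₀, ∀ n : ℕ, n ≤ (p + 3) * a + r →
    ((2 * n ≤ (p + 3) * a + r →
      (n : ℝ) * ((w : ℝ) + 1) * ((a : ℝ) / 2) ^ (w + 1) ≤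
        ((((p + 3) * a + r : ℕ) : ℝ) - n) * ((a : ℝ) ^ (w + 1) -
          (((((p + 3) * a + r : ℕ) : ℝ) - n) / ((p : ℝ) + 3)) ^ (w + 1)) + K * (a : ℝ) ^ (w + 1)) ∧
    ((p + 3) * a + r ≤ 2 * n →
      ((1 / 2 - 1 / (4 * ((p : ℝ) + 1) * ((p : ℝ) + 2))) * a) ^ (w + 1) ≤
        (a : ℝ) ^ (w + 1) -
          (((((p + 3) * a + r : ℕ) : ℝ) - n) / ((p : ℝ) + 3)) ^ (w + 1)))

/-- (BDA) Many vertices of small degree in `W = nb G univ z` give a large deficit.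
Needs SPL, NUB, ZYG, TTR (3). `b = p + 3`, `j = w`, `u = w + 2`, `κ v = kc G (nb G W v) (w+1)`, `D = Δ`.
PROOF. For `v ∈ A`: `nb G W v = co G v z` as sets, so `κ v ≤ c₁ (m0 a/(p+2))^(w+1) ≤ c₁ (a/2)^(w+1)` (ZYG, `CB .. (p+2)`).
`A' = W \ A`, `n = card A`, `card A' ≤ D - n`. ZYG: `u kc G A' u ≤ u choose b u (card A'/b)^u = c₁ card A' (card
A'/b)^(w+1) ≤ c₁ (D-n) ((D-n)/b)^(w+1)` (`u choose b u = b c₁`). TTR (3): `u TT ≥ u choose b u a^u = c₁ b a a^(w+1) =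
c₁ (D - r) a^(w+1)`. So (SPL) `u df - ∑_A (c₁ a^(w+1) - κ) ≥ c₁ [(D-n) a^(w+1) - (D-n)((D-n)/b)^(w+1)] - c₁ r
a^(w+1) - M`. If `2 n ≤ D`: SPL (1), `M ≤ (w+1) ∑_A κ ≤ (w+1) n c₁ (a/2)^(w+1)`: NUB (1). If `2 n > D`: SPL (2) with the
dirty pairs `(v, y)`, `v ∈ A`, `y ∈ W`, `y` in the exceptional set of `v` (at most `n C`), `Y` = the `y ∈ A'` which are
adjacent to some `v ∈ A` and in a part of `v`. For such `y`: `card (nb G W y) ≤ card (co G v z) + card (N(y) \ N(v)) ≤ m0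
a + D - (b-1)(1 - e - e1) a ≤ (m0 + 1 + 2 b e1) a + r ≤ (p+2) g a` for `a` large (`2 b e1 = 1/(8 b^2)`, `(m0+1)/(p+2) =
1/2 - 1/(2(p+1)(p+2))`), so `κ y ≤ c₁ (g a)^(w+1)` (ZYG), `M ≤ (D-n) c₁ (g a)^(w+1) + n C D^w`: NUB (2), and
`C D^w ≤ δ a^(w+1)` for `a` large. -/
def BDAStmt : Prop :=
  ∀ p w r : ℕ, Pr8 p w r → ∃ K : ℝ, 0 < K ∧ ∀ δ C : ℝ, 0 < δ → ∃ a₀ : ℕ, ∀ a ≥ a₀,
    ∀ {V : Type} [Fintype V] [DecidableEq V] (G : SimpleGraph V), G8 G p r a →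
    ∀ (z : V) (A : Finset V), A ⊆ nb G univ z →
    (∀ v ∈ A, ∃ (e : ℝ) (P : Fin (p + 3) → Finset V) (U : Finset V),
      Str G p a e C (nb G univ v) P U ∧ 0 ≤ e ∧ e ≤ e1 p ∧
      ((Pool.KR.co G v z).card : ℝ) ≤ m0 p * a) →
    ∑ v ∈ A, ((p + 2).choose (w + 1) * (a : ℝ) ^ (w + 1) -
      (kc G (Pool.KR.co G v z) (w + 1) : ℝ)) ≤
      ((w : ℝ) + 2) * df G p w r a (nb G univ z) + K * (a : ℝ) ^ (w + 1) +
        δ * A.card * (a : ℝ) ^ (w + 1)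

/-- (BUD) A vertex which is not good can pay. Needs NDM, NDB, BDA.
PROOF. `s₁ = 1/(32 b^2)`; `K` from BDA, `A₀ = 2 (K + (w+2) C₀)/s₁` (`≥ 0`), `C₂ = C₀ + A₀ c₁`; `e₀` from NDM, NDB
(and `≤ e1`). Let `A⁺` be the `v ∈ A` with `nd > 0`; the others contribute `0`. For `v ∈ A⁺`: NDM: `n_z < (m0 -
1/(4(p+1))) a`, `co G v z = nb G (un P) z ∪ nb G U z` (`cov`), so `card (co G v z) ≤ n_z + C ≤ m0 a`; NDB; `kc G (co G v z) (w+1)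
≤ kc G (nb G (un P) z) (w+1) + C Δ^w ≤ .. + (s₁/4) a^(w+1)` (cliques with a vertex in `U`; `kc_le_sum`,
`kc_le_choose`). So `(w+2) nd ≤ c₁ a^(w+1) - kc G (co G v z) (w+1) - (3/4) s₁ a^(w+1)`. Sum and BDA with `δ = s₁/4`:
`(w+2) ∑ nd ≤ (w+2) df + K a^(w+1) - (s₁/2) card A⁺ a^(w+1)`. If `card A⁺ ≥ A₀` done. Otherwise `nd ≤ c₁
a^(w+1)` each: `∑ nd ≤ A₀ c₁ a^(w+1) = (C₂ - C₀) a^(w+1) ≤ df - C₀ a^(w+1)`. -/
def BUDStmt : Prop :=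
  ∀ p w r : ℕ, Pr8 p w r → ∀ C₀ : ℝ, 0 < C₀ → ∃ C₂ : ℝ, 0 < C₂ ∧ ∃ e₀ : ℝ, 0 < e₀ ∧ e₀ ≤ e1 p ∧
    ∀ C : ℝ, ∃ a₀ : ℕ, ∀ a ≥ a₀,
    ∀ {V : Type} [Fintype V] [DecidableEq V] (G : SimpleGraph V), G8 G p r a →
    ∀ (e : ℝ), 0 ≤ e → e ≤ e₀ → ∀ (z : V) (A : Finset V)
    (P : V → Fin (p + 3) → Finset V) (U : V → Finset V), A ⊆ nb G univ z →
    (∀ v ∈ A, Str G p a e C (nb G univ v) (P v) (U v) ∧ z ∈ U v) →
    C₂ * (a : ℝ) ^ (w + 1) ≤ df G p w r a (nb G univ z) →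
    ∑ v ∈ A, nd G p w r a (un (P v)) z ≤
      df G p w r a (nb G univ z) - C₀ * (a : ℝ) ^ (w + 1)

/-! ### Good vertices -/

/-- (GGP) Two good vertices which are exceptional for each other. Needs STG (`Pool.KR.STGStmt`).
PROOF. STG with `δ = 1` (`GG G p a`: degrees `≤ (p+3)a + r ≤ (p+3)a + (p+2)`); its last hypothesis follows from
`a^(p+4) ≤ (a + C₁) kc G N(z) (p+3)`, `bal (p+3) ((p+3)a+(p+2)) ≤ (a+1)^(p+3)` for `a` large. So `card (co G v z) ≤ a`.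
(1) Let `x ∈ co G v z`, `x ∈ P i` and `x ∈ P' k`. `card (nb G (nb G univ v) x) ≥ ∑_(l ≠ i) (card (P l) - card (non G (P l) x)) ≥
(b-1)(1 - e - e1) a` (`b = p + 3`), the same for `z`; both sets are in `nb G univ x` with `≤ Δ` elements: `card (co G v z) ≥
2(b-1)(1 - 2 e1) a - b a - r > a` (`b ≥ 8`), contradiction. (2) `v ∈ nb G univ z`; if `v ∈ P' k` then `card (co G v z) ≥ (b-1)
(1 - 2 e1) a > a`. -/
def GGPStmt : Prop :=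
  ∀ p w r : ℕ, Pr8 p w r → ∃ e₀ : ℝ, 0 < e₀ ∧ e₀ ≤ e1 p ∧ ∀ (C : ℝ) (C₁ : ℕ), ∃ a₀ : ℕ,
    ∀ a ≥ a₀, ∀ {V : Type} [Fintype V] [DecidableEq V] (G : SimpleGraph V), G8 G p r a →
    ∀ (e : ℝ), 0 ≤ e → e ≤ e₀ → ∀ (v z : V) (P P' : Fin (p + 3) → Finset V) (U U' : Finset V),
    Str G p a e C (nb G univ v) P U → Str G p a e C (nb G univ z) P' U' → z ∈ U →
    a ^ (p + 4) ≤ (a + C₁) * kc G (nb G univ z) (p + 3) →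
    Pool.KR.co G v z ⊆ U ∪ U' ∧ v ∈ U'

/-- (PAY) Payments between good vertices. `Gd` = a set of good vertices.
PROOF. For `(v, z) ∈ R` (`v, z ∈ Gd`, `z ∈ U v`) also `(z, v) ∈ R`. `nd ≤ κ = kc G (co G v z) (w+1)` (`kc_mono`, the
subtracted term is `≥ 0` by `hT`). Every `(w+1)`-clique `Q` in `co G v z ⊆ U v ∪ U z` has an element in `U v` or in
`U z`; `z ∉ co G v z`, so the number of `Q` with an element in `U v` is `≤ (card (U v) - 1) (2C)^w`; the same for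
`U z` (`v ∉ co`). So `∑_R nd ≤ ∑_R [(h_v - 1) + (h_z - 1)] (2C)^w = 2 ∑_R (h_v - 1)(2C)^w ≤ 2 (2C)^w ∑_v h_v (h_v - 1) = 4
(2C)^w ∑_v choose h_v 2`. If `w = 0`: `4 ≤ 2(p+1) - 1` (`p ≥ 5`). If `w ≥ 1`: `4 (2C)^w ≤ a ≤ a^w`. -/
def PAYStmt : Prop :=
  ∀ p w r : ℕ, Pr8 p w r → ∀ C : ℝ, 0 < C → ∃ a₀ : ℕ, ∀ a ≥ a₀,
    ∀ {V : Type} [Fintype V] [DecidableEq V] (G : SimpleGraph V) (Gd : Finset V)
    (P : V → Fin (p + 3) → Finset V) (U : V → Finset V),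
    (∀ v ∈ Gd, un (P v) ⊆ nb G univ v ∧ ((U v).card : ℝ) ≤ C) →
    (∀ v ∈ Gd, ∀ z ∈ U v, 0 ≤ TZ G p r (un (P v)) z) →
    (∀ v ∈ Gd, ∀ z ∈ Gd, z ∈ U v → Pool.KR.co G v z ⊆ U v ∪ U z ∧ v ∈ U z) →
    ∑ v ∈ Gd, ∑ z ∈ (U v).filter (fun z => z ∈ Gd), nd G p w r a (un (P v)) z ≤
      ∑ v ∈ Gd, (2 * ((p + 1).choose (w + 1) : ℝ) - 1) * ((U v).card.choose 2 : ℝ) *
        (a : ℝ) ^ w

/-- (KU0) Cliques with `w` vertices: `KU2Stmt` with another constant. Needs DBL, GCO0, CCK0 (1), TRV.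
PROOF. DBL (`j = w`): `(1 - 1/(32b)) a^(b-w) κ ≤ ∑_L choose B w`. If `B < r`: `choose B w ≤ choose (r-1) w`; if `B ≥ r`:
`choose B w ≤ 2^(p+3) (p+3) ww p r B`. `N ≤ (1+e)^b a^b ≤ (1 + 1/(16 b^2)) a^b`. `choose (r-1) w (1 + 1/(16b^2))/(1 -
1/(32b)) ≤ choose (p+1) w + 1/4`: clear for `w = 0`; for `w ≥ 1` `choose (r-1) w ≤ choose (p+1) w (r-1)/(p+1) ≤
choose (p+1) w/2`. -/
def KU0Stmt : Prop :=
  ∀ {V : Type} [DecidableEq V] (G : SimpleGraph V) (p w r a : ℕ) (e C : ℝ) (W : Finset V)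
    (P : Fin (p + 3) → Finset V) (U : Finset V), Pr8 p w r → Str G p a e C W P U → 0 ≤ e →
    e ≤ e1 p / 2 → CB G W (p + 3) → ∀ z ∈ U,
    (kc G (nb G (un P) z) w : ℝ) * (a : ℝ) ^ (p + 3) ≤
      (a : ℝ) ^ w * (((p + 1).choose w + 1 / 4) * (a : ℝ) ^ (p + 3) +
        2 ^ (p + 4) * ((p : ℝ) + 3) * TZ G p r (un P) z)

/-- (LIP) The local inequality with the debts. Needs CCK0, KU0, DKU, DML, XSP0, NET0, SIZ0, XGR0,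
LMB0, GCO0. PROOF. As `LISStmt` (board `gt7`), with `η = et p w` and: (b) `κ_(w+1) z ≤ nd z + (1-η)(1+2K/a) Lm TZ z`
(definition of `nd`, LMB0 (1)); `κ_w z ≤ (choose (p+1) w + 1/4) a^w + (K/a) Lm TZ z`, so `((h-1)/2) ∑ κ_w ≤ (choose
(p+1) w + 1/4) choose h 2 a^w + (K/a) Lm T`. NET0: `3 r ≤ (w+1)(b-r)` from `4 r ≤ b`. (d) `x ≤ r`: SIZ0 leaves
`(2 choose (p+2) (w+1) - choose (p+1) w - 1/2) choose x 2 a^w`, `h ≤ x`, and `choose (p+2) (w+1) = choose (p+1) w +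
choose (p+1) (w+1)`: there remains `≥ (2 choose (p+1) (w+1) - 3/4 - K/a) choose h 2 a^w ≥ (2 choose (p+1) (w+1) - 1)
choose h 2 a^w`. (e) `x > r`: XGR0 with `K` large. -/
def LIPStmt : Prop :=
  ∀ p w r : ℕ, Pr8 p w r → ∃ e₀ : ℝ, 0 < e₀ ∧ ∀ e : ℝ, 0 < e → e ≤ e₀ → ∀ C : ℝ, 0 < C →
    ∃ a₀ : ℕ, ∀ a ≥ a₀, ∀ {V : Type} [DecidableEq V] (G : SimpleGraph V) (W : Finset V)
    (P : Fin (p + 3) → Finset V) (U : Finset V), Str G p a e C W P U → CB G W (p + 3) →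
    W.card ≤ (p + 3) * a + r →
    Ph G p w r a W + (2 * ((p + 1).choose (w + 1) : ℝ) - 1) * (U.card.choose 2 : ℝ) *
      (a : ℝ) ^ w ≤ df G p w r a W + ∑ z ∈ U, nd G p w r a (un P) z

/-- (PHB) The left side is bounded. Needs LMB0, TTR (3). PROOF. `zyk`, `bal_mono`: `kc G W (p+3) ≤ bal`, `min r _ ≤ r`,
`kc ≥ 0`: `Ph ≤ lam bal + Lm r bal = (p+5) lam bal`, and LMB0 (last), TTR (3): `lam bal = r (a+1) TT (p+2) (w+1) a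
(r-1)/((p+4)a+r) ≤ r choose (p+2) (w+1) (a+1)^(w+1) ≤ K a^(w+1)`. -/
def PHBStmt : Prop :=
  ∀ p w r : ℕ, Pr0 p w r → ∃ C₀ : ℝ, 0 < C₀ ∧ ∀ a : ℕ, 1 ≤ a →
    ∀ {V : Type} [DecidableEq V] (G : SimpleGraph V) (W : Finset V), CB G W (p + 3) →
    W.card ≤ (p + 3) * a + r → Ph G p w r a W ≤ C₀ * (a : ℝ) ^ (w + 1)

/-- (SUM8) The inequality summed over all vertices. Needs PHB, BUD, LIP, GGP, PAY, STC, MMC, CCK0, TTR (3).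
PROOF. `C₀` from PHB, `C₂` from BUD, `C` from STC (with `C₂` for its constant), `C₁` from MMC (with `C₂`), `e` = minimum of
the `e₀` of BUD, LIP, GGP and `e1/2`, `1/2`, then `a` large. `Gd` = the `v` with `df G p w r a N(v) < C₂ a^(w+1)`,
`N(v) = nb G univ v` (`CB G N(v) (p+3)` by `CB.nb`). For `v ∈ Gd`: `choose (p+3) (w+2) a^(w+2) ≤ TT ≤ kc + C₂ a^(w+1)`, so
STC gives `P v`, `U v` with `Str` (choose), MMC gives `a^(p+4) ≤ (a + C₁) kc G N(v) (p+3)`. LIP summed over `Gd`: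
`∑_Gd (Ph + sl) ≤ ∑_Gd df + ∑_Gd ∑_(z ∈ U v) nd`, `sl = (2 choose (p+1) (w+1) - 1) choose (card (U v)) 2 a^w`. The terms
with `z ∈ Gd` are `≤ ∑_Gd sl` (PAY; GGP gives its third hypothesis, CCK0 (4) the second). The terms with `z ∉ Gd`: exchange the
sums; for each such `z` the set `A = {v ∈ Gd : z ∈ U v}` is in `nb G univ z` (`U v ⊆ N(v)`), BUD: `∑_(v ∈ A) nd ≤ df N(z) -
C₀ a^(w+1) ≤ df N(z) - Ph N(z)` (PHB). Add up. -/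
def SUM8Stmt : Prop :=
  ∀ p w r : ℕ, Pr8 p w r → ∃ a₀ : ℕ, ∀ a ≥ a₀, ∀ {V : Type} [Fintype V] [DecidableEq V]
    (G : SimpleGraph V), G8 G p r a →
    ∑ v, Ph G p w r a (nb G univ v) ≤ ∑ v, df G p w r a (nb G univ v)

/-- (FN8) The theorem. Needs SUM8, GLD0, TCT. PROOF. As `FNLStmt` (`Pool/Agent/H52/GT/FNL.lean`). -/
def FN8Stmt : Prop :=
  ∀ p w r : ℕ, Pr8 p w r → ∃ a₀ : ℕ, ∀ a ≥ a₀, ∀ (m : ℕ) (H : SimpleGraph (Fin m)),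
    (∀ v, (H.neighborSet v).ncard ≤ (p + 3) * a + r) → H.CliqueFree (p + 5) →
      {s : Finset (Fin m) | H.IsNClique (w + 3) s}.ncard * ((p + 4) * a + r) ≤
        {s : Finset (Fin ((p + 4) * a + r)) |
          (SimpleGraph.turanGraph ((p + 4) * a + r) (p + 4)).IsNClique (w + 3) s}.ncard * m

end Pool.GU7
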